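import Mathlib
import Pool.Agent.Lib_helper3.Classes2

/-!
Two almost simple groups with socle `PSL₂(25)` and the same set of character degrees.

Let `S = PSL₂(25)`.  In `Aut S` let `G` be the whole semilinear group `PΓL₂(25)` and let `H` be
its sharply 3-transitive subgroup of index two, generated by `S` and by the product of a diagonal
automorphism with the Frobenius automorphism.  Both groups have the set of character degrees
`{1, 25, 26, 48, 52}`, and `H` is not isomorphic to any quotient of `G`.
-/

open Matrix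

namespace Pool.Agent.Results.MP_0ee941_al.PSL25

open Pool.Agent.Lib_helper3

/-- The set of degrees of the irreducible complex representations (equivalently, of the
irreducible complex characters) of the group `X`. -/
def cd (X : Type) [Group X] : Set ℕ :=
  {n | ∃ ρ : Representation ℂ X (Fin n → ℂ), ρ.IsIrreducible}

/-- A group is a non-abelian simple group. -/
def NonabelianSimple (S : Type) [Group S] : Prop := IsSimpleGroup S ∧ ∃ a b : S, a * b ≠ b * a

/-- The group of inner automorphisms of `S`, inside the group of all automorphisms. -/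
def Inn (S : Type) [Group S] : Subgroup (MulAut S) := (MulAut.conj : S →* MulAut S).range

/-- `H` is not isomorphic to a quotient `G ⧸ A`, for any normal subgroup `A` of `G`. -/
def NotQuotient (G H : Type) [Group G] [Group H] : Prop :=
  ∀ (A : Subgroup G) [A.Normal], IsEmpty (G ⧸ A ≃* H)

/-- The group `PSL₂(F)`. -/
abbrev PSL2 (F : Type) [Field F] : Type := ProjectiveSpecialLinearGroup (Fin 2) F

/-- `Inn S ≤ H ≤ G ≤ Aut S` with `G` finite, the degree sets of `G` and of `H` are both
`{1, 25, 26, 48, 52}`, and `H` is not isomorphic to a quotient of `G`. -/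
def GoodPair (S : Type) [Group S] (H G : Subgroup (MulAut S)) : Prop :=
  Inn S ≤ H ∧ H ≤ G ∧ Finite G ∧ cd G = {1, 25, 26, 48, 52} ∧ cd H = {1, 25, 26, 48, 52} ∧
    NotQuotient G H

lemma cd_eq (X : Type) [Group X] : cd X = WD.cd X := rfl

lemma simple : IsSimpleGroup PSL25 := by
  refine Matrix.ProjectiveSpecialLinearGroup.rank_two_simple ?_
  rw [Nat.card_eq_fintype_card, card_F25]
  norm_num

lemma nonabelian : ∃ a b : PSL25, a * b ≠ b * a := by
  refine ⟨QuotientGroup.mk uSL, QuotientGroup.mk lSL, fun h => ?_⟩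
  have h1 : (QuotientGroup.mk (uSL * lSL) : PSL25) = QuotientGroup.mk (lSL * uSL) := h
  obtain ⟨r, -, h2⟩ := mk_eq_mk h1
  have e1 := congrFun (congrFun h2 0) 1
  have e2 := congrFun (congrFun h2 0) 0
  have a1 : (lSL * uSL).1 0 1 = 1 := by
    change ((lSL.1 * uSL.1) 0 1 : F25) = 1
    simp [uSL, lSL, Matrix.mul_apply]
  have a2 : (uSL * lSL).1 0 1 = 1 := by
    change ((uSL.1 * lSL.1) 0 1 : F25) = 1
    simp [uSL, lSL, Matrix.mul_apply]
  have a3 : (lSL * uSL).1 0 0 = 1 := by
    change ((lSL.1 * uSL.1) 0 0 : F25) = 1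
    simp [uSL, lSL, Matrix.mul_apply]
  have a4 : (uSL * lSL).1 0 0 = 1 + 1 := by
    change ((uSL.1 * lSL.1) 0 0 : F25) = 1 + 1
    simp [uSL, lSL, Matrix.mul_apply]
  rw [Matrix.smul_apply, a1, a2, smul_eq_mul, mul_one] at e1
  rw [Matrix.smul_apply, a3, a4, smul_eq_mul, ← e1, one_mul] at e2
  exact one_ne_zero (α := F25) (by linear_combination -e2)

lemma center_eq_bot : Subgroup.center PSL25 = ⊥ := by
  have := simple
  rcases (inferInstance : (Subgroup.center PSL25).Normal).eq_bot_or_eq_top with h | h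
  · exact h
  · exfalso
    obtain ⟨a, b, hab⟩ := nonabelian
    have ha : a ∈ Subgroup.center PSL25 := by rw [h]; exact Subgroup.mem_top a
    exact hab (Subgroup.mem_center_iff.1 ha b).symm

lemma conj_mem (x : PSL25) : MulAut.conj x ∈ HH := by
  induction x using QuotientGroup.induction_on with
  | H s =>
    refine ⟨(s : GL25), Or.inl ⟨?_, ?_⟩⟩
    · change s.1.det ^ 12 = 1
      rw [s.2, one_pow]
    · refine MulEquiv.ext fun y => ?_
      induction y using QuotientGroup.induction_on with
      | H t =>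
        change (QuotientGroup.mk (s * t * s⁻¹) : PSL25) = QuotientGroup.mk (conjSL (s : GL25) t)
        congr 1

lemma inn_le : (MulAut.conj : PSL25 →* MulAut PSL25).range ≤ HH := by
  rintro _ ⟨x, rfl⟩
  exact conj_mem x

/-- An automorphism commuting with all inner automorphisms is trivial. -/
lemma eq_one_of_commute (a : MulAut PSL25)
    (h : ∀ x : PSL25, a * MulAut.conj x = MulAut.conj x * a) : a = 1 := by
  refine MulEquiv.ext fun x => ?_
  change a x = x
  have h1 : a x * x⁻¹ ∈ Subgroup.center PSL25 := by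
    rw [Subgroup.mem_center_iff]
    intro z
    obtain ⟨y, rfl⟩ := a.surjective z
    have h2 := DFunLike.congr_fun (h x) y
    change a (x * y * x⁻¹) = x * a y * x⁻¹ at h2
    rw [map_mul, map_mul, map_inv] at h2
    have h3 : x⁻¹ * a x * a y = a y * (x⁻¹ * a x) := by
      calc x⁻¹ * a x * a y = x⁻¹ * (a x * a y * (a x)⁻¹) * a x := by group
        _ = x⁻¹ * (x * a y * x⁻¹) * a x := by rw [h2]
        _ = a y * (x⁻¹ * a x) := by group
    have h4 : x⁻¹ * a x ∈ Subgroup.center PSL25 := by
      rw [Subgroup.mem_center_iff]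
      intro z
      obtain ⟨y, rfl⟩ := a.surjective z
      have h2 := DFunLike.congr_fun (h x) y
      change a (x * y * x⁻¹) = x * a y * x⁻¹ at h2
      rw [map_mul, map_mul, map_inv] at h2
      calc a y * (x⁻¹ * a x) = x⁻¹ * (x * a y * x⁻¹) * a x := by group
        _ = x⁻¹ * (a x * a y * (a x)⁻¹) * a x := by rw [h2]
        _ = x⁻¹ * a x * a y := by group
    rw [center_eq_bot, Subgroup.mem_bot] at h4
    have h5 : a x = x := (inv_mul_eq_one.1 h4).symm
    rw [h5]
    group
  rw [center_eq_bot, Subgroup.mem_bot] at h1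
  exact mul_inv_eq_one.1 h1

lemma not_quotient (A : Subgroup KK) [A.Normal] : IsEmpty (KK ⧸ A ≃* HH) := by
  refine ⟨fun e => ?_⟩
  have h1 : Nat.card A = 2 := by
    have h2 := Subgroup.card_eq_card_quotient_mul_card_subgroup A
    rw [Nat.card_congr e.toEquiv, card_HH, card_KK] at h2
    omega
  obtain ⟨x, y, hxy, huniv⟩ := Nat.card_eq_two_iff.1 h1
  have hmem : ∀ z : A, z = x ∨ z = y := fun z => by
    have : z ∈ ({x, y} : Set A) := by rw [huniv]; trivial
    exact this
  obtain ⟨a, ha1, ha⟩ : ∃ a : A, a ≠ 1 ∧ ∀ z : A, z = 1 ∨ z = a := by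
    rcases hmem 1 with h | h
    · exact ⟨y, by rw [h]; exact hxy.symm, fun z => by rw [h]; exact hmem z⟩
    · exact ⟨x, by rw [h]; exact hxy, fun z => by rw [h]; exact (hmem z).symm⟩
  have hcomm : ∀ g : KK, g * a.1 = a.1 * g := by
    intro g
    have h2 : g * a.1 * g⁻¹ ∈ A := (inferInstance : A.Normal).conj_mem a.1 a.2 g
    rcases ha ⟨_, h2⟩ with h3 | h3
    · exfalso
      apply ha1
      have h4 : g * a.1 * g⁻¹ = 1 := congrArg Subtype.val h3
      have h5 : g * a.1 = g := by rw [mul_inv_eq_one] at h4; exact h4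
      exact Subtype.ext (mul_eq_left.1 h5)
    · have h4 : g * a.1 * g⁻¹ = a.1 := congrArg Subtype.val h3
      rw [mul_inv_eq_iff_eq_mul] at h4
      exact h4
  apply ha1
  apply Subtype.ext
  apply Subtype.ext
  refine eq_one_of_commute _ fun x => ?_
  have h2 := congrArg Subtype.val (hcomm ⟨MulAut.conj x, HH_le_KK (conj_mem x)⟩)
  exact h2.symm

/-- There are almost simple groups `H ≤ G` with socle `PSL₂(25)` such that
`cd G = cd H = {1, 25, 26, 48, 52}` and `H` is not isomorphic to a quotient of `G`. -/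
theorem result : ∃ (F : Type) (_ : Field F), Nat.card F = 25 ∧
    NonabelianSimple (PSL2 F) ∧ ∃ H G : Subgroup (MulAut (PSL2 F)), GoodPair (PSL2 F) H G :=
  ⟨F25, inferInstance, by rw [Nat.card_eq_fintype_card, card_F25], ⟨simple, nonabelian⟩, HH, KK,
    inn_le, HH_le_KK, inferInstance, cd_KK, cd_HH, fun A _ => not_quotient A⟩

end Pool.Agent.Results.MP_0ee941_al.PSL25
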